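import Pool.Agent.Helper33.Iso.Goals

/-!
# Packet ISO-QFACTS: facts on the detecting map
-/

set_option autoImplicit false

open Topology unitInterval RealInnerProductSpace
open Pool.Agent.Helper33.Iso

namespace Pool.Agent.Helper91.Iso

universe w

section

variable {V : Type w} [NormedAddCommGroup V] [InnerProductSpace ℝ V] [FiniteDimensional ℝ V]

theorem proj_coe {p : V} (hp : ‖p‖ = 1) (x : V) :
    (((UU p).orthogonalProjectionOnto x : UU p) : V) = x - ⟪p, x⟫ • p := by
  rw [← Submodule.starProjection_apply]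
  have h : (UU p).starProjection x = x - (ℝ ∙ p).starProjection x :=
    Submodule.starProjection_orthogonal_val x
  rw [h, Submodule.starProjection_unit_singleton ℝ hp]

theorem proj_add {p : V} (hp : ‖p‖ = 1) (ξ : UU p) (s : ℝ) :
    (UU p).orthogonalProjectionOnto ((ξ : V) + s • p) = ξ := by
  apply Subtype.ext
  have h0 : ⟪p, (ξ : V)⟫ = 0 := by
    have := ξ.2
    rw [Submodule.mem_orthogonal_singleton_iff_inner_right] at this
    exact this
  rw [proj_coe hp, inner_add_right, inner_smul_right, real_inner_self_eq_norm_sq, hp, h0]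
  simp

theorem inner_add' {p : V} (hp : ‖p‖ = 1) (ξ : UU p) (s : ℝ) :
    ⟪p, (ξ : V) + s • p⟫ = s := by
  have h0 : ⟪p, (ξ : V)⟫ = 0 := by
    have := ξ.2
    rw [Submodule.mem_orthogonal_singleton_iff_inner_right] at this
    exact this
  rw [inner_add_right, inner_smul_right, real_inner_self_eq_norm_sq, hp, h0]
  simp

theorem eq_of_proj {p : V} (hp : ‖p‖ = 1) {x : V}
    (h : (UU p).orthogonalProjectionOnto x = 0) : x = ⟪p, x⟫ • p := by
  have h1 := proj_coe hp x
  rw [h] at h1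
  have h2 : x - ⟪p, x⟫ • p = 0 := by
    rw [← h1]; rfl
  exact sub_eq_zero.mp h2

/-- The main fact. -/
theorem neg_of {p : V} (hp : ‖p‖ = 1) {x y : V} (hx : x ≠ 0) (hy : y ≠ 0) {lam : ℝ}
    (hl : 0 ≤ lam) (h : QQ p (x, y) = -(lam • ((0, 1) : (UU p × UU p) × ℝ))) :
    ∃ a b : ℝ, 0 < a ∧ 0 < b ∧ x = -(a • p) ∧ y = b • p := by
  have h1 : (UU p).orthogonalProjectionOnto x = 0 := by
    have := congrArg (fun z => z.1.1) h
    simpa [QQ] using this
  have h2 : (UU p).orthogonalProjectionOnto y = 0 := by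
    have := congrArg (fun z => z.1.2) h
    simpa [QQ] using this
  have h3 : max ⟪p, x⟫ (-⟪p, y⟫) = -lam := by
    have := congrArg (fun z => z.2) h
    simpa [QQ] using this
  have h4 : ⟪p, x⟫ ≤ 0 := by
    have := le_max_left ⟪p, x⟫ (-⟪p, y⟫)
    linarith
  have h5 : 0 ≤ ⟪p, y⟫ := by
    have := le_max_right ⟪p, x⟫ (-⟪p, y⟫)
    linarith
  have h6 := eq_of_proj hp h1
  have h7 := eq_of_proj hp h2
  have h8 : ⟪p, x⟫ ≠ 0 := by
    intro h0
    rw [h0, zero_smul] at h6
    exact hx h6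
  have h9 : ⟪p, y⟫ ≠ 0 := by
    intro h0
    rw [h0, zero_smul] at h7
    exact hy h7
  refine ⟨-⟪p, x⟫, ⟪p, y⟫, ?_, ?_, ?_, h7⟩
  · have := lt_of_le_of_ne h4 h8
    linarith
  · exact lt_of_le_of_ne h5 (Ne.symm h9)
  · rw [neg_smul, neg_neg]
    exact h6

end

/-- The packet. -/
theorem gQFACTS : Pool.Agent.Helper33.Iso.QFACTS.{w} := by
  intro V _ _ _ p hp
  refine ⟨?_, ?_, ?_, ?_⟩
  · unfold QQ
    fun_prop
  · intro x y hx hy h
    have h' : QQ p (x, y) = -((0 : ℝ) • ((0, 1) : (UU p × UU p) × ℝ)) := by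
      rw [h, zero_smul, neg_zero]
    obtain ⟨a, b, ha, hb, h1, h2⟩ := neg_of hp hx hy le_rfl h'
    have h3 := congrArg (fun z => z.2) h
    simp only [QQ, Prod.snd_zero] at h3
    have h4 : ⟪p, x⟫ = -a := by
      rw [h1, inner_neg_right, inner_smul_right, real_inner_self_eq_norm_sq, hp]
      ring
    have h5 : ⟪p, y⟫ = b := by
      rw [h2, inner_smul_right, real_inner_self_eq_norm_sq, hp]
      ring
    rw [h4, h5] at h3
    have h6 : max (-a) (-b) < 0 := max_lt (by linarith) (by linarith)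
    linarith
  · intro x y hx hy lam hl h
    exact neg_of hp hx hy hl h
  · intro ξ η s t
    unfold QQ
    rw [proj_add hp, proj_add hp, inner_add' hp, inner_add' hp]

end Pool.Agent.Helper91.Iso
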